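import Pool.Agent.Results.MP_a6d20f_an.NoScalarAcceleration

set_option autoImplicit false

open Filter Topology

noncomputable section

namespace Y912.HB

open Pool.Agent.Results.MP_a6d20f_an.NoScalarAcceleration

/-- Worst-case asymptotic rate of the heavy-ball method with parameters `γ, β` over a class `C` of
functions on the line, an element of `[0, ∞]`. -/
def rateOn (C : Set (ℝ → ℝ)) (γ β : ℝ) : ENNReal :=
  ⨆ (f : ℝ → ℝ) (_ : f ∈ C) (xs : ℝ) (_ : ∀ y : ℝ, f xs ≤ f y)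
    (x : ℕ → ℝ) (_ : IsHeavyBallRun γ β f x),
    limsup (fun t : ℕ => ENNReal.ofReal (|x t - xs| ^ ((1 : ℝ) / (t : ℝ)))) atTop

/-- The quadratic functions `l x² / 2`, `μ ≤ l ≤ L`. -/
def Quadratics (μ L : ℝ) : Set (ℝ → ℝ) :=
  {f | ∃ l : ℝ, μ ≤ l ∧ l ≤ L ∧ f = fun x => l * x ^ 2 / 2}

/-- Some function of the scalar class has a periodic run of the heavy-ball method which consists of
`K ≥ 3` distinct points (so this run does not converge). -/
def HasCycle (γ β μ L : ℝ) : Prop :=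
  ∃ f ∈ ScalarClass μ L, ∃ K : ℕ, 3 ≤ K ∧ ∃ x : ℕ → ℝ, IsHeavyBallRun γ β f x ∧
    (∀ t, x (t + K) = x t) ∧ ∀ s < K, ∀ t < K, x s = x t → s = t

theorem rate_eq (γ β μ L : ℝ) : rate γ β μ L = rateOn (ScalarClass μ L) γ β := rfl

theorem rateOn_mono {C D : Set (ℝ → ℝ)} (h : C ⊆ D) (γ β : ℝ) :
    rateOn C γ β ≤ rateOn D γ β := by
  unfold rateOn
  refine iSup_mono fun f => ?_
  refine iSup_le fun hf => ?_
  exact le_iSup_of_le (h hf) le_rfl

theorem quadratics_subset (μ L : ℝ) : Quadratics μ L ⊆ ScalarClass μ L := by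
  rintro f ⟨l, h1, h2, rfl⟩
  exact quad_mem h1 h2

theorem le_rateOn {C : Set (ℝ → ℝ)} {γ β : ℝ} {f : ℝ → ℝ} (hf : f ∈ C) {xs : ℝ}
    (hxs : ∀ y : ℝ, f xs ≤ f y) {x : ℕ → ℝ} (hx : IsHeavyBallRun γ β f x) :
    limsup (fun t : ℕ => ENNReal.ofReal (|x t - xs| ^ ((1 : ℝ) / (t : ℝ)))) atTop
      ≤ rateOn C γ β := by
  unfold rateOn
  refine le_iSup_of_le f (le_iSup_of_le hf (le_iSup_of_le xs (le_iSup_of_le hxs
    (le_iSup_of_le x (le_iSup_of_le hx le_rfl)))))

/-! ### The quadratic functions -/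

/-- If the rate on the quadratics is at most `1 - η`, every run on one of them is eventually below
`r ^ t`. -/
theorem quad_decay' {γ β μ L l η r : ℝ} (h1 : μ ≤ l) (h2 : l ≤ L) (hμ : 0 < μ)
    (hη : 0 < η) (hr : 0 < r) (hηr : 1 - η < r)
    (hrate : rateOn (Quadratics μ L) γ β + ENNReal.ofReal η ≤ 1) {x : ℕ → ℝ}
    (hx : ∀ t : ℕ, x (t + 2) = (1 + β - γ * l) * x (t + 1) - β * x t) :
    ∀ᶠ t : ℕ in atTop, |x t| ≤ r ^ t := by
  have hmem : (fun x : ℝ => l * x ^ 2 / 2) ∈ Quadratics μ L := ⟨l, h1, h2, rfl⟩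
  have hmin : ∀ y : ℝ, (fun x : ℝ => l * x ^ 2 / 2) 0 ≤ (fun x : ℝ => l * x ^ 2 / 2) y := by
    intro y
    have : 0 < l := lt_of_lt_of_le hμ h1
    simp only
    have : 0 ≤ l * y ^ 2 / 2 := by positivity
    simpa using this
  have hrun : IsHeavyBallRun γ β (fun x : ℝ => l * x ^ 2 / 2) x := by
    intro t
    rw [quad_deriv, hx t]
    ring
  have hle := le_rateOn hmem hmin hrun
  have hlt : limsup (fun t : ℕ => ENNReal.ofReal (|x t - 0| ^ ((1 : ℝ) / (t : ℝ)))) atTop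
      < ENNReal.ofReal r := by
    by_contra hcon
    push Not at hcon
    have h3 : ENNReal.ofReal r + ENNReal.ofReal η ≤ 1 :=
      (add_le_add_left (hcon.trans hle) _).trans hrate
    rw [← ENNReal.ofReal_add hr.le hη.le, ← ENNReal.ofReal_one] at h3
    have h4 := (ENNReal.ofReal_le_ofReal_iff (by norm_num)).mp h3
    linarith
  have hev := eventually_lt_of_limsup_lt hlt
  filter_upwards [hev, eventually_ge_atTop 1] with t ht ht1
  rw [sub_zero] at ht
  have h5 : |x t| ^ ((1 : ℝ) / (t : ℝ)) < r :=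
    (ENNReal.ofReal_lt_ofReal_iff hr).mp ht
  have ht0 : (t : ℝ) ≠ 0 := by
    have : (0 : ℝ) < t := by exact_mod_cast ht1
    exact ne_of_gt this
  have h6 : (|x t| ^ ((1 : ℝ) / (t : ℝ))) ^ t ≤ r ^ t :=
    pow_le_pow_left₀ (by positivity) h5.le t
  rw [← Real.rpow_natCast, ← Real.rpow_mul (abs_nonneg _), one_div, inv_mul_cancel₀ ht0,
    Real.rpow_one] at h6
  exact h6

/-- Complex roots of the characteristic polynomial have modulus at most `1 - η`. -/
theorem root_bound' {γ β μ L l η : ℝ} (h1 : μ ≤ l) (h2 : l ≤ L) (hμ : 0 < μ)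
    (hη : 0 < η) (hη1 : η < 1)
    (hrate : rateOn (Quadratics μ L) γ β + ENNReal.ofReal η ≤ 1) {z : ℂ}
    (hz : z ^ 2 = ((1 + β - γ * l : ℝ) : ℂ) * z - ((β : ℝ) : ℂ)) :
    ‖z‖ ≤ 1 - η := by
  by_contra hcon
  push Not at hcon
  obtain ⟨r, hr1, hr2⟩ := exists_between hcon
  have hr0 : 0 < r := by linarith
  have hrec : ∀ t : ℕ, z ^ (t + 2) = ((1 + β - γ * l : ℝ) : ℂ) * z ^ (t + 1)
      - ((β : ℝ) : ℂ) * z ^ t := by
    intro t
    calc z ^ (t + 2) = z ^ t * z ^ 2 := by ring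
      _ = _ := by rw [hz]; ring
  have hre : ∀ t : ℕ, (z ^ (t + 2)).re = (1 + β - γ * l) * (z ^ (t + 1)).re
      - β * (z ^ t).re := by
    intro t
    rw [hrec t, Complex.sub_re, Complex.re_ofReal_mul, Complex.re_ofReal_mul]
  have him : ∀ t : ℕ, (z ^ (t + 2)).im = (1 + β - γ * l) * (z ^ (t + 1)).im
      - β * (z ^ t).im := by
    intro t
    rw [hrec t, Complex.sub_im, Complex.im_ofReal_mul, Complex.im_ofReal_mul]
  have e1 := quad_decay' h1 h2 hμ hη hr0 hr1 hrate (x := fun t => (z ^ t).re) hre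
  have e2 := quad_decay' h1 h2 hμ hη hr0 hr1 hrate (x := fun t => (z ^ t).im) him
  have e3 : ∀ᶠ t : ℕ in atTop, (‖z‖ / r) ^ t ≤ 2 := by
    filter_upwards [e1, e2] with t ht1 ht2
    have h3 : ‖z ^ t‖ ≤ |(z ^ t).re| + |(z ^ t).im| := Complex.norm_le_abs_re_add_abs_im _
    rw [norm_pow] at h3
    rw [div_pow, div_le_iff₀ (by positivity)]
    linarith
  have e4 : Tendsto (fun t : ℕ => (‖z‖ / r) ^ t) atTop atTop :=
    tendsto_pow_atTop_atTop_of_one_lt ((one_lt_div hr0).mpr hr2)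
  have e5 := e4.eventually_gt_atTop 2
  obtain ⟨t, ht1, ht2⟩ := (e3.and e5).exists
  linarith

/-- Consequences of a rate at most `1 - η` on the quadratics for the parameters. -/
theorem quad_cons' {γ β μ L l η : ℝ} (h1 : μ ≤ l) (h2 : l ≤ L) (hμ : 0 < μ)
    (hη : 0 < η) (hη1 : η < 1)
    (hrate : rateOn (Quadratics μ L) γ β + ENNReal.ofReal η ≤ 1) :
    |β| ≤ 1 ∧ η ^ 2 ≤ γ * l ∧ γ * l ≤ 4 ∧ (1 - β) * η ≤ 2 * (γ * l) := by
  obtain ⟨z, w, hzw, hzw'⟩ := exists_roots (1 + β - γ * l) β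
  have hz : z ^ 2 = ((1 + β - γ * l : ℝ) : ℂ) * z - ((β : ℝ) : ℂ) := by
    rw [← hzw, ← hzw']; ring
  have hw : w ^ 2 = ((1 + β - γ * l : ℝ) : ℂ) * w - ((β : ℝ) : ℂ) := by
    rw [← hzw, ← hzw']; ring
  have bz := root_bound' h1 h2 hμ hη hη1 hrate hz
  have bw := root_bound' h1 h2 hμ hη hη1 hrate hw
  have hre := congrArg Complex.re hzw
  have him := congrArg Complex.im hzw
  have hre' := congrArg Complex.re hzw'
  have him' := congrArg Complex.im hzw'
  simp only [Complex.add_re, Complex.ofReal_re, Complex.add_im, Complex.ofReal_im,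
    Complex.mul_re, Complex.mul_im] at hre him hre' him'
  have hzr : |z.re| ≤ 1 - η := (Complex.abs_re_le_norm z).trans bz
  have hwr : |w.re| ≤ 1 - η := (Complex.abs_re_le_norm w).trans bw
  have hβ : |β| ≤ 1 := by
    have : ‖z * w‖ = |β| := by rw [hzw', Complex.norm_real]; rfl
    rw [norm_mul] at this
    rw [← this]
    have h3 : ‖z‖ * ‖w‖ ≤ 1 * 1 :=
      mul_le_mul (by linarith) (by linarith) (norm_nonneg _) (by norm_num)
    simpa using h3
  rw [abs_le] at hzr hwr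
  set a := z.re
  set a' := w.re
  set v := z.im
  have hw2 : w.im = -v := by linarith
  rw [hw2] at hre' him'
  -- `γ l = (1-a)(1-a') + v²`
  have key : γ * l = (1 - a) * (1 - a') + v ^ 2 := by nlinarith
  have hA : η ≤ 1 - a := by linarith [hzr.2]
  have hA' : η ≤ 1 - a' := by linarith [hwr.2]
  refine ⟨hβ, ?_, ?_, ?_⟩
  · nlinarith [mul_le_mul hA hA' hη.le (by linarith), sq_nonneg v]
  · have hb := abs_le.mp hβ
    have : γ * l = 1 + β - (a + a') := by linarith
    rw [this]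
    linarith [hzr.1, hwr.1, hb.2]
  · have h3 : 1 - β = (1 - a) + (1 - a') - γ * l := by linarith
    rw [h3]
    have h4 : 0 ≤ (1 - a) * ((1 - a') - η) := mul_nonneg (by linarith) (by linarith)
    have h5 : 0 ≤ (1 - a') * ((1 - a) - η) := mul_nonneg (by linarith) (by linarith)
    have h6 : 0 ≤ γ * l * η := by
      apply mul_nonneg _ hη.le
      rw [key]
      have : 0 ≤ (1 - a) * (1 - a') := mul_nonneg (by linarith) (by linarith)
      nlinarith [sq_nonneg v]
    nlinarith [sq_nonneg v]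

/-! ### The geometry of the sample points -/

theorem sin_odd {K : ℕ} (hK : 0 < K) {n : ℕ} (hn : n < K) :
    Real.sin (Real.pi / (2 * K)) ≤ Real.sin ((2 * (n : ℝ) + 1) * (Real.pi / (2 * K))) := by
  have hKr : (0 : ℝ) < K := by exact_mod_cast hK
  have hp := Real.pi_pos
  set φ : ℝ := Real.pi / (2 * K) with hφ
  have hφ0 : 0 < φ := by positivity
  have hKφ : (K : ℝ) * φ = Real.pi / 2 := by rw [hφ]; field_simp
  have hn1 : (n : ℝ) + 1 ≤ K := by exact_mod_cast hn
  have hn0 : (0 : ℝ) ≤ n := Nat.cast_nonneg n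
  have h := Real.sin_sub_sin ((2 * (n : ℝ) + 1) * φ) φ
  have e1 : ((2 * (n : ℝ) + 1) * φ - φ) / 2 = n * φ := by ring
  have e2 : ((2 * (n : ℝ) + 1) * φ + φ) / 2 = (n + 1) * φ := by ring
  rw [e1, e2] at h
  have h1 : (n + 1) * φ ≤ Real.pi / 2 := by
    rw [← hKφ]; exact mul_le_mul_of_nonneg_right hn1 hφ0.le
  have h2 : 0 ≤ (n : ℝ) * φ := by positivity
  have h3 : 0 ≤ Real.sin ((n : ℝ) * φ) := by
    apply Real.sin_nonneg_of_nonneg_of_le_pi h2
    nlinarith
  have h4 : 0 ≤ Real.cos (((n : ℝ) + 1) * φ) := by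
    apply Real.cos_nonneg_of_neg_pi_div_two_le_of_le _ h1
    nlinarith
  have h5 : 0 ≤ 2 * Real.sin ((n : ℝ) * φ) * Real.cos (((n : ℝ) + 1) * φ) := by positivity
  linarith

theorem abs_sin_odd {K : ℕ} (hK : 0 < K) {n : ℕ} (hn : n < 2 * K) :
    Real.sin (Real.pi / (2 * K)) ≤ |Real.sin ((2 * (n : ℝ) + 1) * (Real.pi / (2 * K)))| := by
  rcases lt_or_ge n K with h | h
  · exact (sin_odd hK h).trans (le_abs_self _)
  · obtain ⟨m, rfl⟩ := Nat.exists_eq_add_of_le h
    have hm : m < K := by omega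
    have hKr : (0 : ℝ) < K := by exact_mod_cast hK
    have e : (2 * ((K + m : ℕ) : ℝ) + 1) * (Real.pi / (2 * K)) =
        (2 * (m : ℝ) + 1) * (Real.pi / (2 * K)) + Real.pi := by
      push_cast
      field_simp
      ring
    rw [e, Real.sin_add_pi, abs_neg]
    exact (sin_odd hK hm).trans (le_abs_self _)

theorem abs_sin_four (φ : ℝ) : |Real.sin (4 * φ)| ≤ 4 * |Real.sin φ| := by
  have e : Real.sin (4 * φ) = 4 * Real.sin φ * (Real.cos φ * Real.cos (2 * φ)) := by
    have : 4 * φ = 2 * (2 * φ) := by ring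
    rw [this, Real.sin_two_mul, Real.sin_two_mul]
    ring
  have h1 := Real.abs_cos_le_one φ
  have h2 := Real.abs_cos_le_one (2 * φ)
  rw [e, abs_mul, abs_mul, abs_mul]
  have h3 : |Real.cos φ| * |Real.cos (2 * φ)| ≤ 1 := by
    have := mul_le_mul h1 h2 (abs_nonneg _) zero_le_one
    simpa using this
  have h4 : |(4 : ℝ)| = 4 := abs_of_pos (by norm_num)
  rw [h4]
  have h5 : 0 ≤ 4 * |Real.sin φ| := by positivity
  nlinarith

/-- The key comparison: the previous points of two points of the cycle are at most five times as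
far from each other as the points themselves. -/
theorem prev_diff {K : ℕ} (hK : 0 < K) {s t : ℕ} (hs : s < K) (ht : t < K) :
    |pt K ((s : ℤ) - 1) - pt K ((t : ℤ) - 1)| ≤ 5 * |pt K (s : ℤ) - pt K (t : ℤ)| := by
  unfold pt
  set φ : ℝ := Real.pi / (2 * K) with hφ
  have hKr : (0 : ℝ) < K := by exact_mod_cast hK
  have hp := Real.pi_pos
  have hφ0 : 0 < φ := by positivity
  have hK1 : (1 : ℝ) ≤ K := by exact_mod_cast hK
  have hKφ : (K : ℝ) * φ = Real.pi / 2 := by rw [hφ]; field_simp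
  have hφ1 : φ ≤ Real.pi / 2 := by rw [← hKφ]; nlinarith
  have hsin : 0 ≤ Real.sin φ := Real.sin_nonneg_of_nonneg_of_le_pi hφ0.le (by linarith)
  rw [Real.cos_sub_cos, Real.cos_sub_cos]
  have e1 : ((4 * (((s : ℤ) - 1 : ℤ) : ℝ) + 1) * φ + (4 * (((t : ℤ) - 1 : ℤ) : ℝ) + 1) * φ) / 2 =
      (2 * ((s + t : ℕ) : ℝ) + 1) * φ - 4 * φ := by
    push_cast; ring
  have e2 : ((4 * (((s : ℤ) - 1 : ℤ) : ℝ) + 1) * φ - (4 * (((t : ℤ) - 1 : ℤ) : ℝ) + 1) * φ) / 2 =
      2 * ((s : ℝ) - t) * φ := by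
    push_cast; ring
  have e3 : ((4 * ((s : ℤ) : ℝ) + 1) * φ + (4 * ((t : ℤ) : ℝ) + 1) * φ) / 2 =
      (2 * ((s + t : ℕ) : ℝ) + 1) * φ := by
    push_cast; ring
  have e4 : ((4 * ((s : ℤ) : ℝ) + 1) * φ - (4 * ((t : ℤ) : ℝ) + 1) * φ) / 2 =
      2 * ((s : ℝ) - t) * φ := by
    push_cast; ring
  rw [e1, e2, e3, e4]
  set m : ℝ := (2 * ((s + t : ℕ) : ℝ) + 1) * φ with hm
  have hm1 : Real.sin φ ≤ |Real.sin m| := abs_sin_odd hK (n := s + t) (by omega)
  have h4 := abs_sin_four φ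
  rw [abs_of_nonneg hsin] at h4
  have h5 : |Real.sin (m - 4 * φ)| ≤ 5 * |Real.sin m| := by
    rw [Real.sin_sub]
    have a1 : |Real.sin m * Real.cos (4 * φ)| ≤ |Real.sin m| := by
      rw [abs_mul]
      have := Real.abs_cos_le_one (4 * φ)
      have h0 := abs_nonneg (Real.sin m)
      nlinarith
    have a2 : |Real.cos m * Real.sin (4 * φ)| ≤ 4 * |Real.sin m| := by
      rw [abs_mul]
      have := Real.abs_cos_le_one m
      have h0 := abs_nonneg (Real.sin (4 * φ))
      nlinarith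
    have a3 := abs_sub (Real.sin m * Real.cos (4 * φ)) (Real.cos m * Real.sin (4 * φ))
    linarith
  rw [abs_mul, abs_mul, abs_mul, abs_mul]
  have h6 : 0 ≤ |(-2 : ℝ)| * |Real.sin (2 * ((s : ℝ) - t) * φ)| := by positivity
  nlinarith

/-! ### The cycle -/

/-- If `l = 2 - 2 cos (2π/K)` satisfies `γ μ ≤ l/2`, `3l/2 ≤ γ L` and `12 (1 - β) ≤ l`, some
function of the class has a cycle of `K` points. -/
theorem cycle_of_params {γ β μ L l : ℝ} {K : ℕ} (hK : 3 ≤ K) (hμL : μ ≤ L)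
    (hγ : 0 < γ) (hl : l = 2 - 2 * Real.cos (2 * Real.pi / K))
    (hβ0 : 0 ≤ 1 - β) (hβ1 : 6 * (1 - β) ≤ l / 2)
    (h1 : γ * μ ≤ l / 2) (h2 : 3 * l / 2 ≤ γ * L) : HasCycle γ β μ L := by
  have hK0 : 0 < K := by omega
  set x : ℕ → ℝ := fun t => pt K (t : ℤ) with hx
  set g : ℕ → ℝ := fun t =>
    (l * pt K (t : ℤ) - (1 - β) * (pt K (t : ℤ) - pt K ((t : ℤ) - 1))) / γ with hg
  have hslope : ∀ s < K, ∀ t < K, x t ≤ x s →
      μ * (x s - x t) ≤ g s - g t ∧ g s - g t ≤ L * (x s - x t) := by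
    intro s hs t ht hle
    have hpos : 0 ≤ x s - x t := by linarith
    have hP := prev_diff hK0 hs ht
    have hge : x s - x t = pt K (s : ℤ) - pt K (t : ℤ) := rfl
    rw [← hge, abs_of_nonneg hpos] at hP
    set P := pt K ((s : ℤ) - 1) - pt K ((t : ℤ) - 1) with hPdef
    obtain ⟨hP2, hP1⟩ := abs_le.mp hP
    have hgd : γ * (g s - g t) = (l - (1 - β)) * (x s - x t) + (1 - β) * P := by
      simp only [hg, hx, hPdef]
      field_simp
      ring
    have h5 : (1 - β) * P ≤ (1 - β) * (5 * (x s - x t)) :=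
      mul_le_mul_of_nonneg_left hP1 hβ0
    have h6 : (1 - β) * (-(5 * (x s - x t))) ≤ (1 - β) * P :=
      mul_le_mul_of_nonneg_left hP2 hβ0
    have h7 : 6 * (1 - β) * (x s - x t) ≤ l / 2 * (x s - x t) :=
      mul_le_mul_of_nonneg_right hβ1 hpos
    have h8 : γ * μ * (x s - x t) ≤ l / 2 * (x s - x t) :=
      mul_le_mul_of_nonneg_right h1 hpos
    have h9 : 3 * l / 2 * (x s - x t) ≤ γ * L * (x s - x t) :=
      mul_le_mul_of_nonneg_right h2 hpos
    have h10 : 0 ≤ (1 - β) * (x s - x t) := mul_nonneg hβ0 hpos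
    constructor
    · have : γ * (μ * (x s - x t)) ≤ γ * (g s - g t) := by
        rw [hgd]; nlinarith
      exact le_of_mul_le_mul_left this hγ
    · have : γ * (g s - g t) ≤ γ * (L * (x s - x t)) := by
        rw [hgd]; nlinarith
      exact le_of_mul_le_mul_left this hγ
  obtain ⟨f, hf, hfval⟩ := exists_interpolant hK0 hμL x g hslope
  have hper : ∀ t : ℕ, x (t + K) = x t := by
    intro t
    have := pt_period hK0 (t : ℤ)
    simp only [hx]
    push_cast
    exact this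
  have hgper : ∀ t : ℕ, g (t + K) = g t := by
    intro t
    have h3 := pt_period hK0 (t : ℤ)
    have h4 := pt_period hK0 ((t : ℤ) - 1)
    simp only [hg]
    push_cast
    rw [h3, show (t : ℤ) + K - 1 = ((t : ℤ) - 1) + K by ring, h4]
  have hfval' : ∀ t : ℕ, deriv f (x t) = g t := by
    intro t
    induction t using Nat.strong_induction_on with
    | _ t ih =>
      by_cases htK : t < K
      · exact hfval t htK
      · have h3 : t = (t - K) + K := by omega
        rw [h3, hper, hgper]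
        exact ih (t - K) (by omega)
  have hrun : IsHeavyBallRun γ β f x := by
    intro t
    rw [hfval' (t + 1)]
    simp only [hg, hx]
    have h3 := pt_rec K hK0 ((t : ℤ) + 1)
    push_cast
    rw [show (t : ℤ) + 1 + 1 = (t : ℤ) + 2 by ring, show (t : ℤ) + 1 - 1 = (t : ℤ) by ring] at h3
    rw [show (t : ℤ) + 1 - 1 = (t : ℤ) by ring, mul_div_cancel₀ _ (ne_of_gt hγ)]
    rw [hl]
    linarith
  exact ⟨f, hf, K, hK, x, hrun, hper, fun s hs t ht h => pt_injective hK0 hs ht h⟩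

/-- The length of the cycle. -/
theorem exists_len {s : ℝ} (hs : 0 < s) (hs4 : s ≤ 4) :
    ∃ K : ℕ, 3 ≤ K ∧ s / 6 ≤ 2 - 2 * Real.cos (2 * Real.pi / K) ∧
      2 - 2 * Real.cos (2 * Real.pi / K) ≤ 2 * s / 3 := by
  have hlim : Tendsto (fun K : ℕ => 2 - 2 * Real.cos (2 * Real.pi / (K : ℝ))) atTop (𝓝 0) := by
    have h1 : Tendsto (fun K : ℕ => 2 * Real.pi / (K : ℝ)) atTop (𝓝 0) :=
      tendsto_const_div_atTop_nhds_zero_nat _
    have h2 := (Real.continuous_cos.tendsto 0).comp h1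
    rw [Real.cos_zero] at h2
    have h3 := (h2.const_mul 2).const_sub 2
    simpa using h3
  have hex : ∃ j : ℕ, 2 - 2 * Real.cos (2 * Real.pi / ((4 * 2 ^ j : ℕ) : ℝ)) ≤ 2 * s / 3 := by
    have hev := hlim.eventually_lt_const (show (0 : ℝ) < 2 * s / 3 by positivity)
    obtain ⟨N, hN⟩ := eventually_atTop.mp hev
    refine ⟨N, (hN (4 * 2 ^ N) ?_).le⟩
    have : N < 2 ^ N := Nat.lt_two_pow_self
    omega
  classical
  obtain ⟨h1, h2⟩ := And.intro (Nat.find_spec hex) (fun j hj => Nat.find_min hex (m := j) hj)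
  set j := Nat.find hex with hj
  rcases Nat.eq_zero_or_pos j with h0 | h0
  · refine ⟨4, by norm_num, ?_, ?_⟩
    · have : (2 * Real.pi / ((4 : ℕ) : ℝ)) = Real.pi / 2 := by push_cast; ring
      rw [this, Real.cos_pi_div_two]
      linarith
    · rw [h0] at h1
      simpa using h1
  · obtain ⟨i, hi⟩ : ∃ i, j = i + 1 := ⟨j - 1, by omega⟩
    refine ⟨4 * 2 ^ j, ?_, ?_, h1⟩
    · have : 1 ≤ 2 ^ j := Nat.one_le_two_pow
      omega
    · have h3 := h2 i (by omega)
      push Not at h3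
      have e : 2 * Real.pi / ((4 * 2 ^ i : ℕ) : ℝ) = 2 * (2 * Real.pi / ((4 * 2 ^ j : ℕ) : ℝ)) := by
        rw [hi]
        push_cast
        field_simp
        ring
      rw [e, Real.cos_two_mul] at h3
      set c := Real.cos (2 * Real.pi / ((4 * 2 ^ j : ℕ) : ℝ)) with hc
      have h4 : c ≤ 1 := Real.cos_le_one _
      have h5 : -1 ≤ c := Real.neg_one_le_cos _
      nlinarith [mul_nonneg (sub_nonneg.mpr h4) (sub_nonneg.mpr h4)]

/-- Either the method is slow already on the quadratics, or it has a cycle. -/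
theorem dichotomy {μ L γ β : ℝ} (hμ : 0 < μ) (hμL : μ < L)
    (h : rateOn (Quadratics μ L) γ β + ENNReal.ofReal (144 * (μ / L)) < 1) :
    HasCycle γ β μ L := by
  have hL : 0 < L := hμ.trans hμL
  set q : ℝ := μ / L with hq
  have hq0 : 0 < q := div_pos hμ hL
  have hη : 0 < 144 * q := by positivity
  have hη1 : 144 * q < 1 := by
    rw [← ENNReal.ofReal_lt_one]
    exact lt_of_le_of_lt le_add_self h
  obtain ⟨hβ, hA1, _, hA3⟩ := quad_cons' le_rfl hμL.le hμ hη hη1 h.le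
  obtain ⟨_, _, hB2, _⟩ := quad_cons' hμL.le le_rfl hμ hη hη1 h.le
  have hμq : μ = L * q := by rw [hq]; field_simp
  set s : ℝ := γ * L with hs
  have hγμ : γ * μ = q * s := by rw [hμq, hs]; ring
  rw [hγμ] at hA1 hA3
  have hs1 : 144 ^ 2 * q ≤ s := by
    have : q * (144 ^ 2 * q) ≤ q * s := by linarith [mul_pow (144 : ℝ) q 2]
    exact le_of_mul_le_mul_left this hq0
  have hs0 : 0 < s := lt_of_lt_of_le (by positivity) hs1
  have hγ : 0 < γ := (mul_pos_iff_of_pos_right hL).mp hs0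
  have hβ0 : 0 ≤ 1 - β := by linarith [(abs_le.mp hβ).2]
  have hb : 72 * (1 - β) ≤ s := by
    have : q * (144 * (1 - β)) ≤ q * (2 * s) := by linarith
    have := le_of_mul_le_mul_left this hq0
    linarith
  obtain ⟨K, hK, hK1, hK2⟩ := exists_len hs0 hB2
  refine cycle_of_params hK hμL.le hγ rfl hβ0 ?_ ?_ ?_
  · linarith
  · rw [hγμ]
    have : q * s ≤ 1 / 144 * s := mul_le_mul_of_nonneg_right (by linarith) hs0.le
    linarith
  · linarith

theorem one_le_of_cycle {μ L γ β : ℝ} (hμ : 0 < μ) (h : HasCycle γ β μ L) :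
    1 ≤ rate γ β μ L := by
  obtain ⟨f, hf, K, hK, x, hx, hper, hinj⟩ := h
  refine one_le_rate_of_cycle hμ hf hx (by omega) hper ?_
  intro h01
  have := hinj 0 (by omega) 1 (by omega) h01
  omega

/-! ### Gradient descent -/

theorem gd_step {μ L : ℝ} (hμ : 0 < μ) (hμL : μ < L) {f : ℝ → ℝ} (hf : f ∈ ScalarClass μ L)
    {xs : ℝ} (h0 : deriv f xs = 0) (y : ℝ) :
    |y - 1 / L * deriv f y - xs| ≤ (1 - μ / L) * |y - xs| := by
  have hL : 0 < L := hμ.trans hμL
  have hLL : 1 / L * L = 1 := by field_simp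
  have hLμ : 1 / L * μ = μ / L := by ring
  have hi : 0 < 1 / L := by positivity
  rcases lt_trichotomy y xs with h | h | h
  · obtain ⟨h1, h2⟩ := deriv_sub_bounds hf h
    rw [h0] at h1 h2
    rw [abs_of_neg (show y - xs < 0 by linarith)]
    have a1 := mul_le_mul_of_nonneg_left h1 hi.le
    have a2 := mul_le_mul_of_nonneg_left h2 hi.le
    have e1 : 1 / L * (μ * (xs - y)) = μ / L * (xs - y) := by ring
    have e2 : 1 / L * (L * (xs - y)) = xs - y := by field_simp
    have e3 : 1 / L * (0 - deriv f y) = -(1 / L * deriv f y) := by ring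
    rw [e1, e3] at a1
    rw [e2, e3] at a2
    rw [abs_le]
    constructor
    · nlinarith
    · have : μ / L < 1 := by rw [div_lt_one hL]; exact hμL
      nlinarith
  · subst h
    rw [h0]; simp
  · obtain ⟨h1, h2⟩ := deriv_sub_bounds hf h
    rw [h0] at h1 h2
    rw [abs_of_pos (show 0 < y - xs by linarith)]
    have a1 := mul_le_mul_of_nonneg_left h1 hi.le
    have a2 := mul_le_mul_of_nonneg_left h2 hi.le
    have e1 : 1 / L * (μ * (y - xs)) = μ / L * (y - xs) := by ring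
    have e2 : 1 / L * (L * (y - xs)) = y - xs := by field_simp
    have e3 : 1 / L * (deriv f y - 0) = 1 / L * deriv f y := by ring
    rw [e1, e3] at a1
    rw [e2, e3] at a2
    rw [abs_le]
    constructor
    · have : μ / L < 1 := by rw [div_lt_one hL]; exact hμL
      nlinarith
    · nlinarith

theorem gd_rate {μ L : ℝ} (hμ : 0 < μ) (hμL : μ < L) :
    rate (1 / L) 0 μ L ≤ ENNReal.ofReal (1 - μ / L) := by
  have hL : 0 < L := hμ.trans hμL
  unfold rate
  refine iSup_le fun f => iSup_le fun hf => iSup_le fun xs => iSup_le fun hxs =>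
    iSup_le fun x => iSup_le fun hx => ?_
  have hd : deriv f xs = 0 := by
    have : IsLocalMin f xs := Filter.Eventually.of_forall hxs
    exact this.deriv_eq_zero
  set q : ℝ := 1 - μ / L with hq
  have hq0 : 0 < q := by
    have : μ / L < 1 := by rw [div_lt_one hL]; exact hμL
    linarith
  have hstep : ∀ t, |x (t + 2) - xs| ≤ q * |x (t + 1) - xs| := by
    intro t
    have e : x (t + 2) - xs = x (t + 1) - 1 / L * deriv f (x (t + 1)) - xs := by
      rw [hx t]; ring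
    rw [e]
    exact gd_step hμ hμL hf hd _
  have hdec : ∀ t, |x (t + 1) - xs| ≤ q ^ t * |x 1 - xs| := by
    intro t
    induction t with
    | zero => simp
    | succ n ih =>
      refine (hstep n).trans ?_
      calc q * |x (n + 1) - xs| ≤ q * (q ^ n * |x 1 - xs|) := mul_le_mul_of_nonneg_left ih hq0.le
        _ = q ^ (n + 1) * |x 1 - xs| := by ring
  set C : ℝ := |x 1 - xs| / q + 1 with hC
  have hC0 : 0 < C := by positivity
  have hbound : ∀ᶠ t : ℕ in atTop, ENNReal.ofReal (|x t - xs| ^ ((1 : ℝ) / (t : ℝ))) ≤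
      ENNReal.ofReal (q * C ^ ((1 : ℝ) / (t : ℝ))) := by
    filter_upwards [eventually_ge_atTop 1] with t ht
    apply ENNReal.ofReal_le_ofReal
    have ht0 : (t : ℝ) ≠ 0 := by
      have : (0 : ℝ) < t := by exact_mod_cast ht
      exact ne_of_gt this
    have h1 : |x t - xs| ≤ q ^ t * C := by
      obtain ⟨n, rfl⟩ : ∃ n, t = n + 1 := ⟨t - 1, by omega⟩
      refine (hdec n).trans ?_
      have e : q ^ (n + 1) * C = q ^ n * |x 1 - xs| + q ^ (n + 1) := by
        rw [hC]; field_simp; ring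
      rw [e]
      have : 0 < q ^ (n + 1) := by positivity
      linarith
    calc |x t - xs| ^ ((1 : ℝ) / (t : ℝ)) ≤ (q ^ t * C) ^ ((1 : ℝ) / (t : ℝ)) :=
          Real.rpow_le_rpow (abs_nonneg _) h1 (by positivity)
      _ = q * C ^ ((1 : ℝ) / (t : ℝ)) := by
          rw [Real.mul_rpow (by positivity) hC0.le, ← Real.rpow_natCast, ← Real.rpow_mul hq0.le,
            mul_one_div_cancel ht0, Real.rpow_one]
  have hlim : Tendsto (fun t : ℕ => ENNReal.ofReal (q * C ^ ((1 : ℝ) / (t : ℝ)))) atTop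
      (𝓝 (ENNReal.ofReal q)) := by
    have h1 : Tendsto (fun t : ℕ => C ^ ((1 : ℝ) / (t : ℝ))) atTop (𝓝 (C ^ (0 : ℝ))) := by
      refine Tendsto.rpow tendsto_const_nhds ?_ (Or.inl (ne_of_gt hC0))
      exact tendsto_one_div_atTop_nhds_zero_nat
    rw [Real.rpow_zero] at h1
    have h2 := h1.const_mul q
    rw [mul_one] at h2
    exact (ENNReal.continuous_ofReal.tendsto q).comp h2
  calc limsup (fun t : ℕ => ENNReal.ofReal (|x t - xs| ^ ((1 : ℝ) / (t : ℝ)))) atTop
      ≤ limsup (fun t : ℕ => ENNReal.ofReal (q * C ^ ((1 : ℝ) / (t : ℝ)))) atTop :=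
        limsup_le_limsup hbound
    _ = ENNReal.ofReal q := hlim.limsup_eq

end Y912.HB
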